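import Mathlib
import Pool.Agent.H5.MGHilb

set_option autoImplicit false

namespace Pool.Agent.Results.MP_94ed3e_ag.FatPoint

open MvPolynomial Pool.Agent.H5.MGHilb

universe u

/-- The degrees of the three variables: `deg x = (1,0)`, `deg y = (0,1)`, `deg z = (1,1)`. -/
def wt : Fin 3 → ℤ × ℤ := ![(1, 0), (0, 1), (1, 1)]

def dg : Fin 12 → ℤ × ℤ :=
  ![(0,0), (1,1), (2,2), (0,1), (1,2), (2,3), (0,2), (1,3), (0,3), (1,0), (2,1), (1,1)]

/-- exponents of the 12 standard monomials -/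
def ea : Fin 12 → ℕ := ![0, 0, 0, 0, 0, 0, 0, 0, 0, 1, 1, 1]
def eb : Fin 12 → ℕ := ![0, 0, 0, 1, 1, 1, 2, 2, 3, 0, 0, 1]
def ec : Fin 12 → ℕ := ![0, 1, 2, 0, 1, 2, 0, 1, 0, 0, 1, 0]

/-- The monomial with exponents `a, b, c`. -/
noncomputable def e3 (a b c : ℕ) : Fin 3 →₀ ℕ :=
  Finsupp.single 0 a + Finsupp.single 1 b + Finsupp.single 2 c

lemma e3_0 (a b c : ℕ) : e3 a b c 0 = a := by simp [e3]
lemma e3_1 (a b c : ℕ) : e3 a b c 1 = b := by simp [e3]
lemma e3_2 (a b c : ℕ) : e3 a b c 2 = c := by simp [e3]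

lemma e3_eta (s : Fin 3 →₀ ℕ) : s = e3 (s 0) (s 1) (s 2) := by
  ext i
  fin_cases i
  · exact (e3_0 _ _ _).symm
  · exact (e3_1 _ _ _).symm
  · exact (e3_2 _ _ _).symm

lemma weight_eq (s : Fin 3 →₀ ℕ) :
    Finsupp.weight wt s = ((s 0 : ℤ) + s 2, (s 1 : ℤ) + s 2) := by
  rw [Finsupp.weight_apply, Finsupp.sum_fintype _ _ (by simp)]
  ext <;> simp [Fin.sum_univ_three, wt]

/-- Table of normal forms: `(false, j)` is the `j`-th standard monomial, `(true, j)` is `t` times it. -/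
def nfi : ℕ → ℕ → ℕ → Option (Bool × Fin 12)
  | 0, 0, 0 => some (false, 0)
  | 0, 0, 1 => some (false, 1)
  | 0, 0, 2 => some (false, 2)
  | 0, 1, 0 => some (false, 3)
  | 0, 1, 1 => some (false, 4)
  | 0, 1, 2 => some (false, 5)
  | 0, 2, 0 => some (false, 6)
  | 0, 2, 1 => some (false, 7)
  | 0, 3, 0 => some (false, 8)
  | 1, 0, 0 => some (false, 9)
  | 1, 0, 1 => some (false, 10)
  | 1, 1, 0 => some (false, 11)
  | 1, 1, 1 => some (true, 2)
  | 1, 2, 0 => some (true, 4)
  | 1, 2, 1 => some (true, 5)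
  | 1, 3, 0 => some (true, 7)
  | _, _, _ => none

section vec

variable {R : Type u} [CommRing R]

def vo (t : R) : Option (Bool × Fin 12) → (Fin 12 → R)
  | none => 0
  | some (false, j) => Pi.single j 1
  | some (true, j) => Pi.single j t

/-- normal form vector of a monomial -/
def vt (t : R) (a b c : ℕ) : Fin 12 → R := vo t (nfi a b c)

def vec (t : R) (s : Fin 3 →₀ ℕ) : Fin 12 → R := vt t (s 0) (s 1) (s 2)

noncomputable def bb (R : Type u) [CommRing R] (j : Fin 12) : MvPolynomial (Fin 3) R :=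
  monomial (e3 (ea j) (eb j) (ec j)) 1

noncomputable def Mm (t : R) (i : Fin 3) : (Fin 12 → R) →ₗ[R] (Fin 12 → R) :=
  Fintype.linearCombination R (fun j => vt t (ea j + if i = 0 then 1 else 0)
    (eb j + if i = 1 then 1 else 0) (ec j + if i = 2 then 1 else 0))

lemma Mm_single (t : R) (i : Fin 3) (j : Fin 12) (r : R) :
    Mm t i (Pi.single j r) = r • vt t (ea j + if i = 0 then 1 else 0)
    (eb j + if i = 1 then 1 else 0) (ec j + if i = 2 then 1 else 0) := by
  rw [Mm, Fintype.linearCombination_apply_single]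

lemma step (t : R) (ht : t * t = 0) (i : Fin 3) (a b c : ℕ) :
    vt t (a + if i = 0 then 1 else 0) (b + if i = 1 then 1 else 0) (c + if i = 2 then 1 else 0) =
      Mm t i (vt t a b c) := by
  have hs : ∀ (j : Fin 12) (r s : R), r • (Pi.single j s : Fin 12 → R) = Pi.single j (r * s) := by
    intro j r s
    rw [← Pi.single_smul, smul_eq_mul]
  rcases a with _ | _ | a <;> rcases b with _ | _ | _ | _ | b <;> rcases c with _ | _ | _ | c <;>
    fin_cases i <;>
    simp [vt, nfi, vo, Mm_single, ea, eb, ec, hs, ht]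

lemma compat (t : R) (ht : t * t = 0) : MulCompat (vec t) := by
  intro i
  refine ⟨Mm t i, fun s => ?_⟩
  have h := step t ht i (s 0) (s 1) (s 2)
  rw [vec, vec, ← h]
  congr 1 <;> fin_cases i <;> simp

lemma nfi_deg : ∀ (a b c : ℕ) (p : Bool × Fin 12), nfi a b c = some p →
    (((a : ℤ) + c, (b : ℤ) + c) : ℤ × ℤ) = dg p.2 := by
  intro a b c p h
  rcases a with _ | _ | a <;> rcases b with _ | _ | _ | _ | b <;> rcases c with _ | _ | _ | c <;>
    simp [nfi] at h <;> subst h <;> simp [dg]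

lemma sys (t : R) (ht : t * t = 0) : NFSys wt dg (vec t) (bb R) where
  compat := compat t ht
  base := by
    intro j
    rw [bb, NF_monomial, one_smul, vec, e3_0, e3_1, e3_2]
    fin_cases j <;> rfl
  homog := by
    intro s j hj
    rw [weight_eq]
    rw [vec, vt] at hj
    rcases hn : nfi (s 0) (s 1) (s 2) with _ | ⟨u, j'⟩
    · rw [hn] at hj
      exact absurd rfl hj
    · have h1 := nfi_deg _ _ _ _ hn
      rw [h1]
      rw [hn] at hj
      have h2 : j = j' := by
        by_contra hne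
        apply hj
        rcases u with _ | _
        · exact Pi.single_eq_of_ne hne _
        · exact Pi.single_eq_of_ne hne _
      rw [h2]
  basedeg := by
    intro j
    refine isWeightedHomogeneous_monomial wt _ 1 ?_
    rw [weight_eq, e3_0, e3_1, e3_2]
    fin_cases j <;> simp [ea, eb, ec, dg]

end vec

/-- The Hilbert function: the number of standard monomials of each degree. -/
def hh (a : ℤ × ℤ) : ℕ := Fintype.card {j : Fin 12 // dg j = a}

lemma nfi_none : ∀ a b c : ℕ, nfi a b c = none →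
    2 ≤ a ∨ 4 ≤ b ∨ (3 ≤ b ∧ 1 ≤ c) ∨ (2 ≤ b ∧ 2 ≤ c) ∨ 3 ≤ c ∨ (1 ≤ a ∧ 2 ≤ c) := by
  intro a b c h
  rcases a with _ | _ | a <;> rcases b with _ | _ | _ | _ | b <;> rcases c with _ | _ | _ | c <;>
    simp [nfi] at h ⊢

lemma nfi_false : ∀ (a b c : ℕ) (j : Fin 12), nfi a b c = some (false, j) →
    a = ea j ∧ b = eb j ∧ c = ec j := by
  intro a b c j h
  rcases a with _ | _ | a <;> rcases b with _ | _ | _ | _ | b <;> rcases c with _ | _ | _ | c <;>
    simp [nfi] at h <;> subst h <;> simp [ea, eb, ec]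

lemma nfi_true : ∀ (a b c : ℕ) (j : Fin 12), nfi a b c = some (true, j) →
    (a = 1 ∧ b = 1 ∧ c = 1 ∧ j = 2) ∨ (a = 1 ∧ b = 2 ∧ c = 0 ∧ j = 4) ∨
    (a = 1 ∧ b = 2 ∧ c = 1 ∧ j = 5) ∨ (a = 1 ∧ b = 3 ∧ c = 0 ∧ j = 7) := by
  intro a b c j h
  rcases a with _ | _ | a <;> rcases b with _ | _ | _ | _ | b <;> rcases c with _ | _ | _ | c <;>
    simp [nfi] at h <;> subst h <;> simp

section point

variable {R : Type u} [CommRing R] {I : Ideal (MvPolynomial (Fin 3) R)}

lemma mon_mul (a b c a' b' c' : ℕ) :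
    (monomial (e3 a b c) 1 : MvPolynomial (Fin 3) R) * monomial (e3 a' b' c') 1 =
      monomial (e3 (a + a') (b + b') (c + c')) 1 := by
  rw [monomial_mul, mul_one]
  congr 1
  rw [e3_eta (e3 a b c + e3 a' b' c')]
  simp only [Finsupp.add_apply, e3_0, e3_1, e3_2]

lemma mem_mono {a b c : ℕ} (h : (monomial (e3 a b c) 1 : MvPolynomial (Fin 3) R) ∈ I)
    (a' b' c' : ℕ) (h1 : a ≤ a') (h2 : b ≤ b') (h3 : c ≤ c') :
    (monomial (e3 a' b' c') 1 : MvPolynomial (Fin 3) R) ∈ I := by
  obtain ⟨x, rfl⟩ := Nat.exists_eq_add_of_le h1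
  obtain ⟨y, rfl⟩ := Nat.exists_eq_add_of_le h2
  obtain ⟨z, rfl⟩ := Nat.exists_eq_add_of_le h3
  rw [← mon_mul]
  exact Ideal.mul_mem_right _ _ h

lemma wt_e3 (a b c : ℕ) (p q : ℤ) (h1 : (a : ℤ) + c = p) (h2 : (b : ℤ) + c = q) :
    Finsupp.weight wt (e3 a b c) = (p, q) := by
  rw [weight_eq, e3_0, e3_1, e3_2, h1, h2]

lemma X_eq0 : (X 0 : MvPolynomial (Fin 3) R) = monomial (e3 1 0 0) 1 := by
  rw [X]; congr 1; simp [e3]
lemma X_eq1 : (X 1 : MvPolynomial (Fin 3) R) = monomial (e3 0 1 0) 1 := by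
  rw [X]; congr 1; simp [e3]
lemma X_eq2 : (X 2 : MvPolynomial (Fin 3) R) = monomial (e3 0 0 1) 1 := by
  rw [X]; congr 1; simp [e3]

lemma point_to_t (hI : IsPoint wt hh I) : ∃ t : R, t * t = 0 ∧ Reduces (vec t) (bb R) I := by
  -- the vanishing monomials
  have z200 : (monomial (e3 2 0 0) 1 : MvPolynomial (Fin 3) R) ∈ I :=
    mem_of_rank_zero hI (a := (2, 0)) (by decide) (wt_e3 _ _ _ _ _ (by norm_num) (by norm_num))
  have z040 : (monomial (e3 0 4 0) 1 : MvPolynomial (Fin 3) R) ∈ I :=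
    mem_of_rank_zero hI (a := (0, 4)) (by decide) (wt_e3 _ _ _ _ _ (by norm_num) (by norm_num))
  have z031 : (monomial (e3 0 3 1) 1 : MvPolynomial (Fin 3) R) ∈ I :=
    mem_of_rank_zero hI (a := (1, 4)) (by decide) (wt_e3 _ _ _ _ _ (by norm_num) (by norm_num))
  have z022 : (monomial (e3 0 2 2) 1 : MvPolynomial (Fin 3) R) ∈ I :=
    mem_of_rank_zero hI (a := (2, 4)) (by decide) (wt_e3 _ _ _ _ _ (by norm_num) (by norm_num))
  have z003 : (monomial (e3 0 0 3) 1 : MvPolynomial (Fin 3) R) ∈ I :=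
    mem_of_rank_zero hI (a := (3, 3)) (by decide) (wt_e3 _ _ _ _ _ (by norm_num) (by norm_num))
  have z102 : (monomial (e3 1 0 2) 1 : MvPolynomial (Fin 3) R) ∈ I :=
    mem_of_rank_zero hI (a := (3, 2)) (by decide) (wt_e3 _ _ _ _ _ (by norm_num) (by norm_num))
  have hnone : ∀ a b c, nfi a b c = none → (monomial (e3 a b c) 1 : MvPolynomial (Fin 3) R) ∈ I := by
    intro a b c hn
    rcases nfi_none a b c hn with h | h | ⟨h, h'⟩ | ⟨h, h'⟩ | h | ⟨h, h'⟩
    · exact mem_mono z200 _ _ _ h (by omega) (by omega)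
    · exact mem_mono z040 _ _ _ (by omega) h (by omega)
    · exact mem_mono z031 _ _ _ (by omega) h h'
    · exact mem_mono z022 _ _ _ (by omega) h h'
    · exact mem_mono z003 _ _ _ (by omega) (by omega) h
    · exact mem_mono z102 _ _ _ h (by omega) h'
  -- the elements
  let u : piece wt I (1, 2) := ⟨_, monomial_mem_piece (s := e3 1 2 0) (wt_e3 _ _ _ _ _ (by norm_num) (by norm_num))⟩
  let v : piece wt I (1, 2) := ⟨_, monomial_mem_piece (s := e3 0 1 1) (wt_e3 _ _ _ _ _ (by norm_num) (by norm_num))⟩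
  let p : piece wt I (2, 2) := ⟨_, monomial_mem_piece (s := e3 1 1 1) (wt_e3 _ _ _ _ _ (by norm_num) (by norm_num))⟩
  let q : piece wt I (2, 2) := ⟨_, monomial_mem_piece (s := e3 0 0 2) (wt_e3 _ _ _ _ _ (by norm_num) (by norm_num))⟩
  let f1 : piece wt I (2, 3) := ⟨_, monomial_mem_piece (s := e3 1 2 1) (wt_e3 _ _ _ _ _ (by norm_num) (by norm_num))⟩
  let f2 : piece wt I (2, 3) := ⟨_, monomial_mem_piece (s := e3 0 1 2) (wt_e3 _ _ _ _ _ (by norm_num) (by norm_num))⟩
  -- the isomorphisms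
  have hα := mulX_bij hI 2 (1, 2) (2, 3) (by decide) (by decide) (by
    intro s hs
    rw [weight_eq, Prod.mk.injEq] at hs
    by_cases h2 : s 2 = 0
    · left
      rw [e3_eta s]
      exact mem_mono z200 _ _ _ (by omega) (by omega) (by omega)
    · right; omega)
  have hβ := mulX_bij hI 1 (2, 2) (2, 3) (by decide) (by decide) (by
    intro s hs
    rw [weight_eq, Prod.mk.injEq] at hs
    right; omega)
  let α := LinearEquiv.ofBijective _ hα
  let β := LinearEquiv.ofBijective _ hβ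
  let μ := mulX (w := wt) I 0 ((1, 2) : ℤ × ℤ) ((2, 2) : ℤ × ℤ) (by decide)
  have hαu : α u = f1 := by
    apply Subtype.ext
    change Ideal.Quotient.mk I (X 2) * Ideal.Quotient.mk I (monomial (e3 1 2 0) 1) = Ideal.Quotient.mk I (monomial (e3 1 2 1) 1)
    rw [← map_mul, X_eq2, mon_mul]
  have hαv : α v = f2 := by
    apply Subtype.ext
    change Ideal.Quotient.mk I (X 2) * Ideal.Quotient.mk I (monomial (e3 0 1 1) 1) = Ideal.Quotient.mk I (monomial (e3 0 1 2) 1)
    rw [← map_mul, X_eq2, mon_mul]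
  have hβp : β p = f1 := by
    apply Subtype.ext
    change Ideal.Quotient.mk I (X 1) * Ideal.Quotient.mk I (monomial (e3 1 1 1) 1) = Ideal.Quotient.mk I (monomial (e3 1 2 1) 1)
    rw [← map_mul, X_eq1, mon_mul]
  have hβq : β q = f2 := by
    apply Subtype.ext
    change Ideal.Quotient.mk I (X 1) * Ideal.Quotient.mk I (monomial (e3 0 0 2) 1) = Ideal.Quotient.mk I (monomial (e3 0 1 2) 1)
    rw [← map_mul, X_eq1, mon_mul]
  have hμu : μ u = 0 := by
    apply Subtype.ext
    change Ideal.Quotient.mk I (X 0) * Ideal.Quotient.mk I (monomial (e3 1 2 0) 1) = 0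
    rw [← map_mul, X_eq0, mon_mul, Ideal.Quotient.eq_zero_iff_mem]
    exact mem_mono z200 _ _ _ (by omega) (by omega) (by omega)
  have hμv : μ v = p := by
    apply Subtype.ext
    change Ideal.Quotient.mk I (X 0) * Ideal.Quotient.mk I (monomial (e3 0 1 1) 1) = Ideal.Quotient.mk I (monomial (e3 1 1 1) 1)
    rw [← map_mul, X_eq0, mon_mul]
  let θ : piece wt I (2, 3) →ₗ[R] piece wt I (2, 3) := β.toLinearMap ∘ₗ μ ∘ₗ α.symm.toLinearMap
  have hθ2 : θ f2 = f1 := by
    change β (μ (α.symm f2)) = f1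
    rw [← hαv, LinearEquiv.symm_apply_apply, hμv, hβp]
  have hθ1 : θ f1 = 0 := by
    change β (μ (α.symm f1)) = 0
    rw [← hαu, LinearEquiv.symm_apply_apply, hμu, map_zero]
  have hgen : Submodule.span R {f1, f2} = ⊤ := by
    refine span_pair_top f1 f2 ?_
    intro s hs
    rw [weight_eq, Prod.mk.injEq] at hs
    have h3 : s 2 = 0 ∨ s 2 = 1 ∨ s 2 = 2 := by omega
    rw [e3_eta s]
    rcases h3 with h3 | h3 | h3
    · refine ⟨0, 0, ?_⟩
      rw [zero_smul, zero_smul, add_zero, Ideal.Quotient.eq_zero_iff_mem]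
      exact mem_mono z200 _ _ _ (by omega) (by omega) (by omega)
    · refine ⟨1, 0, ?_⟩
      rw [h3, show s 0 = 1 by omega, show s 1 = 2 by omega, one_smul, zero_smul, add_zero]
    · refine ⟨0, 1, ?_⟩
      rw [h3, show s 0 = 0 by omega, show s 1 = 1 by omega, one_smul, zero_smul, zero_add]
  obtain ⟨hfin, hproj, hrk⟩ := hI.2 (2, 3)
  have hrk1 : ∀ P : PrimeSpectrum R, Module.rankAtStalk (piece wt I (2, 3)) P = 1 := by
    intro P; rw [hrk]; decide
  have hsurj := rank_one_surj hrk1 θ f1 f2 hθ2 hgen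
  have hbij := rank_one_bij hrk1 _ hsurj
  obtain ⟨t, ht⟩ := hsurj f1
  rw [LinearMap.toSpanSingleton_apply] at ht
  have htt : t * t = 0 := by
    apply hbij.1
    rw [LinearMap.toSpanSingleton_apply, LinearMap.toSpanSingleton_apply, zero_smul, mul_smul, ht,
      ← hθ2, ← map_smul, ht, hθ1]
  have huv : u = t • v := by
    apply α.injective
    rw [map_smul, hαu, hαv, ht]
  have hpq : p = t • q := by
    apply β.injective
    rw [map_smul, hβp, hβq, ht]
  have r121 : Ideal.Quotient.mk I (monomial (e3 1 2 1) 1) = t • Ideal.Quotient.mk I (monomial (e3 0 1 2) 1) :=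
    (congrArg Subtype.val ht).symm
  have r120 : Ideal.Quotient.mk I (monomial (e3 1 2 0) 1) = t • Ideal.Quotient.mk I (monomial (e3 0 1 1) 1) :=
    congrArg Subtype.val huv
  have r111 : Ideal.Quotient.mk I (monomial (e3 1 1 1) 1) = t • Ideal.Quotient.mk I (monomial (e3 0 0 2) 1) :=
    congrArg Subtype.val hpq
  have r130 : Ideal.Quotient.mk I (monomial (e3 1 3 0) 1) = t • Ideal.Quotient.mk I (monomial (e3 0 2 1) 1) := by
    have h1 : (monomial (e3 1 3 0) 1 : MvPolynomial (Fin 3) R) = monomial (e3 0 1 0) 1 * monomial (e3 1 2 0) 1 := by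
      rw [mon_mul]
    have h2 : (monomial (e3 0 2 1) 1 : MvPolynomial (Fin 3) R) = monomial (e3 0 1 0) 1 * monomial (e3 0 1 1) 1 := by
      rw [mon_mul]
    rw [h1, h2, map_mul, map_mul, r120, mul_smul_comm]
  refine ⟨t, htt, ?_⟩
  intro s
  have hsum : ∀ (j : Fin 12) (r : R), ∑ i, (Pi.single j r : Fin 12 → R) i • bb R i = r • bb R j := by
    intro j r
    rw [Finset.sum_eq_single j]
    · rw [Pi.single_eq_same]
    · intro i _ hi
      rw [Pi.single_eq_of_ne hi, zero_smul]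
    · intro h; exact absurd (Finset.mem_univ j) h
  have hT : ∀ (s : Fin 3 →₀ ℕ) (j : Fin 12), Ideal.Quotient.mk I (monomial s 1) = t • Ideal.Quotient.mk I (bb R j) →
      (monomial s 1 : MvPolynomial (Fin 3) R) - t • bb R j ∈ I := by
    intro s j h
    rw [← Ideal.Quotient.eq_zero_iff_mem, map_sub, h]
    change t • Ideal.Quotient.mk I (bb R j) - t • Ideal.Quotient.mk I (bb R j) = 0
    rw [sub_self]
  have hvec : vec t s = vo t (nfi (s 0) (s 1) (s 2)) := rfl
  rw [hvec]
  rcases hn : nfi (s 0) (s 1) (s 2) with _ | ⟨_ | _, j⟩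
  · have h1 : ∑ j, (vo t none : Fin 12 → R) j • bb R j = 0 :=
      Finset.sum_eq_zero (fun j _ => by rw [vo, Pi.zero_apply, zero_smul])
    rw [h1, sub_zero, e3_eta s]
    exact hnone _ _ _ hn
  · obtain ⟨h1, h2, h3⟩ := nfi_false _ _ _ _ hn
    rw [vo, hsum, one_smul, bb, e3_eta s, h1, h2, h3, sub_self]
    exact I.zero_mem
  · rw [vo, hsum]
    apply hT
    rw [e3_eta s]
    rcases nfi_true _ _ _ _ hn with ⟨h1, h2, h3, rfl⟩ | ⟨h1, h2, h3, rfl⟩ | ⟨h1, h2, h3, rfl⟩ | ⟨h1, h2, h3, rfl⟩ <;>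
      rw [h1, h2, h3]
    · exact r111
    · exact r120
    · exact r121
    · exact r130

end point

open DualNumber in
/-- **A multigraded Hilbert scheme that is a fat point.**  Over every field `k`, for
`S = k[x, y, z]` graded by `ℤ²` with `deg x = (1,0)`, `deg y = (0,1)`, `deg z = (1,1)` there is
`h : ℤ² → ℕ` such that `H_S^h` is represented by `Spec k[ε]`, `k[ε] = k[t]/(t²)`; the ring `k[ε]` is
local, Artinian and not reduced. -/
theorem result (k : Type u) [Field k] :
    ∃ (w : Fin 3 → ℤ × ℤ) (h : ℤ × ℤ → ℕ), Represents k w h (DualNumber k) ∧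
      IsLocalRing (DualNumber k) ∧ IsArtinianRing (DualNumber k) ∧ ¬ IsReduced (DualNumber k) := by
  have heps : (ε : DualNumber k) * ε = 0 := DualNumber.eps_mul_eps
  have hmap : ∀ (R : Type u) [CommRing R] [Algebra k R] (φ : DualNumber k →ₐ[k] R) (ht : φ ε * φ ε = 0),
      (nfIdeal (vec (ε : DualNumber k)) (sys _ heps).compat).map (MvPolynomial.map φ.toRingHom) =
        nfIdeal (vec (φ ε)) (sys _ ht).compat := by
    intro R _ _ φ ht
    refine map_nfIdeal φ.toRingHom (sys _ heps) (vec (φ ε)) (bb R) (sys _ ht) ?_ ?_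
    · intro s j
      rw [vec, vec, vt, vt]
      rcases nfi (s 0) (s 1) (s 2) with _ | ⟨_ | _, j'⟩
      · simp [vo]
      · by_cases hj : j = j'
        · subst hj; simp [vo]
        · simp [vo, Pi.single_eq_of_ne hj]
      · by_cases hj : j = j'
        · subst hj; simp [vo]
        · simp [vo, Pi.single_eq_of_ne hj]
    · intro j
      rw [bb, bb, map_monomial, map_one]
  have hsq : ∀ (R : Type u) [CommRing R] [Algebra k R] (φ : DualNumber k →ₐ[k] R), φ ε * φ ε = 0 := by
    intro R _ _ φ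
    rw [← map_mul, heps, map_zero]
  refine ⟨wt, hh, ⟨nfIdeal (vec (ε : DualNumber k)) (sys _ heps).compat, nfIdeal_isPoint (sys _ heps), ?_⟩,
    inferInstance, ?_, ?_⟩
  · intro R _ _
    refine ⟨fun φ => ?_, fun I hI => ?_⟩
    · rw [hmap R φ (hsq R φ)]
      exact nfIdeal_isPoint (sys _ (hsq R φ))
    · obtain ⟨t, ht, hred⟩ := point_to_t hI
      have hIt := eq_nfIdeal (sys t ht) hred hI
      refine ⟨DualNumber.lift ⟨(Algebra.ofId k R, t), ht, fun a => Commute.all _ _⟩, ?_, ?_⟩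
      · have h1 : DualNumber.lift ⟨(Algebra.ofId k R, t), ht, fun a => Commute.all _ _⟩ (ε : DualNumber k) = t := by
          simp
        have h2 := hmap R (DualNumber.lift ⟨(Algebra.ofId k R, t), ht, fun a => Commute.all _ _⟩) (by rw [h1]; exact ht)
        refine h2.trans ?_
        rw [hIt]
        congr 1
        rw [h1]
      · intro φ hφ
        apply DualNumber.algHom_ext
        rw [DualNumber.lift_apply_eps]
        have hφ' : (nfIdeal (vec (ε : DualNumber k)) (sys _ heps).compat).map (MvPolynomial.map φ.toRingHom) = I := hφ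
        rw [hmap R φ (hsq R φ)] at hφ'
        have h3 : (monomial (e3 1 2 0) 1 : MvPolynomial (Fin 3) R) - t • monomial (e3 0 1 1) 1 ∈
            nfIdeal (vec (φ ε)) (sys _ (hsq R φ)).compat := by
          rw [hφ', hIt, mem_nfIdeal, map_sub, map_smul, NF_monomial, NF_monomial, one_smul, one_smul]
          rw [vec, vec, e3_0, e3_1, e3_2, e3_0, e3_1, e3_2]
          change (Pi.single 4 t : Fin 12 → R) - t • Pi.single 4 1 = 0
          rw [← Pi.single_smul, smul_eq_mul, mul_one, sub_self]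
        rw [mem_nfIdeal, map_sub, map_smul, NF_monomial, NF_monomial, one_smul, one_smul] at h3
        rw [vec, vec, e3_0, e3_1, e3_2, e3_0, e3_1, e3_2] at h3
        have h4 : (Pi.single 4 (φ ε) : Fin 12 → R) - t • Pi.single 4 1 = 0 := h3
        have h5 := congrFun h4 4
        simp at h5
        exact sub_eq_zero.1 h5
  · have : Module.Finite k (DualNumber k) := inferInstanceAs (Module.Finite k (k × k))
    exact IsArtinianRing.of_finite k (DualNumber k)
  · intro hred
    have h1 : (ε : DualNumber k) = 0 := by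
      have := hred.eq_zero (ε : DualNumber k) ⟨2, by rw [pow_two]; exact heps⟩
      exact this
    have h2 := congrArg TrivSqZeroExt.snd h1
    simp at h2

end Pool.Agent.Results.MP_94ed3e_ag.FatPoint
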